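import Pool.Agent.Helper44.TOT.Defs

/-!
# TOT-S7
-/

set_option autoImplicit false

namespace Pool.Agent.Helper41.TOT

open Pool.Agent.Helper44.TOT

/-- `D / φ(D) = ∏ (1 - 1/l)⁻¹ ≤ exp (2 ∑ 1/l)` -/
theorem ratio_le (D : ℕ) (hD : 1 ≤ D) :
    (D : ℝ) / D.totient ≤ Real.exp (2 * ∑ l ∈ D.primeFactors, (1 : ℝ) / l) := by
  have h1 : (D.totient : ℝ) = D * ∏ p ∈ D.primeFactors, (1 - (p : ℝ)⁻¹) := by
    have h := Nat.totient_eq_mul_prod_factors D
    have h2 := congrArg (fun q : ℚ => (q : ℝ)) h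
    push_cast at h2
    exact h2
  have hD0 : (0 : ℝ) < D := by exact_mod_cast hD
  have hpos : ∀ p ∈ D.primeFactors, (0 : ℝ) < 1 - (p : ℝ)⁻¹ := by
    intro p hp
    have h2 : (2 : ℝ) ≤ p := by exact_mod_cast (Nat.prime_of_mem_primeFactors hp).two_le
    have h3 : (p : ℝ)⁻¹ ≤ 2⁻¹ := inv_anti₀ (by norm_num) h2
    linarith [h3, (by norm_num : (2 : ℝ)⁻¹ < 1)]
  have hprod : 0 < ∏ p ∈ D.primeFactors, (1 - (p : ℝ)⁻¹) := Finset.prod_pos hpos
  rw [h1, div_mul_eq_div_div, div_self hD0.ne', one_div, ← Finset.prod_inv_distrib, Finset.mul_sum,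
    Real.exp_sum]
  refine Finset.prod_le_prod (fun p hp => (inv_pos.2 (hpos p hp)).le) (fun p hp => ?_)
  have h2 : (2 : ℝ) ≤ p := by exact_mod_cast (Nat.prime_of_mem_primeFactors hp).two_le
  have h3 : (p : ℝ)⁻¹ ≤ 2⁻¹ := inv_anti₀ (by norm_num) h2
  have h4 : (0 : ℝ) < (p : ℝ)⁻¹ := inv_pos.2 (by linarith)
  refine le_trans ?_ (Real.add_one_le_exp _)
  rw [inv_le_iff_one_le_mul₀ (hpos p hp), one_div]
  nlinarith

theorem card_le (D : ℕ) (hD : 1 ≤ D) : (D.primeFactors.card : ℝ) ≤ 2 * Real.log D := by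
  have h1 : 2 ^ D.primeFactors.card ≤ ∏ p ∈ D.primeFactors, p := by
    rw [← Finset.prod_const]
    exact Finset.prod_le_prod' fun p hp => (Nat.prime_of_mem_primeFactors hp).two_le
  have h2 : ∏ p ∈ D.primeFactors, p ≤ D := Nat.le_of_dvd hD (Nat.prod_primeFactors_dvd D)
  have h3 : ((2 : ℝ) ^ D.primeFactors.card) ≤ D := by exact_mod_cast h1.trans h2
  have h4 := Real.log_le_log (by positivity) h3
  rw [Real.log_pow] at h4
  have h5 := Real.log_two_gt_d9
  have h6 : (0 : ℝ) ≤ D.primeFactors.card := Nat.cast_nonneg _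
  nlinarith

theorem totLow (hR : RecipPrime) : TotLow := by
  obtain ⟨C, hC⟩ := hR
  refine ⟨max (2 * C) ⌈Real.exp (2 * C + 4) * 3 ^ (2 * C)⌉₊, fun D hD => ?_⟩
  have hDr : (1 : ℝ) ≤ D := by exact_mod_cast hD
  set L := Real.log D with hL
  have hL0 : 0 ≤ L := Real.log_nonneg hDr
  set T : ℕ := ⌈L⌉₊ + 2 with hT
  have hT2 : 2 ≤ T := by omega
  have hTlo : 1 + L ≤ T := by
    rw [hT]
    push_cast
    have := Nat.le_ceil L
    linarith
  have hThi : (T : ℝ) ≤ L + 3 := by
    rw [hT]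
    push_cast
    have := Nat.ceil_lt_add_one hL0
    linarith
  have hTpos : (0 : ℝ) < T := by linarith
  -- the sum over the prime divisors
  have hsum : ∑ l ∈ D.primeFactors, (1 : ℝ) / l ≤ C * (1 + Real.log (1 + Real.log T)) + 2 := by
    classical
    rw [← Finset.sum_filter_add_sum_filter_not D.primeFactors (fun l => l ≤ T)]
    refine add_le_add ?_ ?_
    · refine le_trans (Finset.sum_le_sum_of_subset_of_nonneg ?_ fun i _ _ => by positivity)
        (hC T hT2)
      intro l hl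
      rw [Finset.mem_filter] at hl
      rw [Finset.mem_filter, Finset.mem_Icc]
      have hp := Nat.prime_of_mem_primeFactors hl.1
      exact ⟨⟨hp.one_lt.le, hl.2⟩, hp⟩
    · have h1 : ∑ l ∈ D.primeFactors with ¬ l ≤ T, (1 : ℝ) / l ≤
          ∑ _l ∈ D.primeFactors with ¬ _l ≤ T, (1 : ℝ) / T := by
        refine Finset.sum_le_sum fun l hl => ?_
        rw [Finset.mem_filter, not_le] at hl
        exact one_div_le_one_div_of_le hTpos (by exact_mod_cast hl.2.le)
      refine h1.trans ?_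
      rw [Finset.sum_const, nsmul_eq_mul]
      have h2 : ((D.primeFactors.filter fun l => ¬ l ≤ T).card : ℝ) ≤ 2 * L :=
        le_trans (by exact_mod_cast Finset.card_filter_le _ _) (card_le D hD)
      rw [mul_one_div, div_le_iff₀ hTpos]
      nlinarith
  have hbase : 1 ≤ 1 + Real.log (1 + L) := by
    have := Real.log_nonneg (show (1 : ℝ) ≤ 1 + L by linarith)
    linarith
  have hlogT0 : 0 < 1 + Real.log T := by
    have := Real.log_nonneg (show (1 : ℝ) ≤ T by linarith)
    linarith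
  have hlogT : 1 + Real.log T ≤ 3 * (1 + Real.log (1 + L)) := by
    have h1 : Real.log T ≤ Real.log (3 * (1 + L)) := Real.log_le_log hTpos (by linarith)
    rw [Real.log_mul (by norm_num) (by linarith)] at h1
    have h2 : Real.log 3 ≤ 2 := by
      have := Real.log_le_sub_one_of_pos (show (0 : ℝ) < 3 by norm_num)
      linarith
    have h3 := Real.log_nonneg (show (1 : ℝ) ≤ 1 + L by linarith)
    linarith
  have hmain : (D : ℝ) / D.totient ≤ Real.exp (2 * C + 4) * 3 ^ (2 * C) *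
      (1 + Real.log (1 + L)) ^ (2 * C) := by
    refine (ratio_le D hD).trans ?_
    have h1 : Real.exp (2 * ∑ l ∈ D.primeFactors, (1 : ℝ) / l) ≤
        Real.exp ((2 * C + 4) + (2 * C : ℕ) * Real.log (1 + Real.log T)) := by
      refine Real.exp_le_exp.2 ?_
      push_cast
      linarith
    refine h1.trans ?_
    rw [Real.exp_add, mul_assoc]
    refine mul_le_mul_of_nonneg_left ?_ (Real.exp_pos _).le
    rw [Real.exp_nat_mul, Real.exp_log hlogT0, ← mul_pow]
    exact pow_le_pow_left₀ hlogT0.le hlogT _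
  refine hmain.trans ?_
  refine mul_le_mul ?_ (pow_le_pow_right₀ hbase (le_max_left _ _)) (by positivity) (by positivity)
  refine (Nat.le_ceil _).trans ?_
  exact_mod_cast le_max_right _ _

end Pool.Agent.Helper41.TOT
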